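import Pool.Agent.H41.Bh3

set_option autoImplicit false

open Pool.Agent.H41.Bh

/-- For every `K > 1`: (i) the Bohr inequality holds for all `f ∈ 𝓕_K` and `0 ≤ r ≤ r_K`;
(ii) for every `r > r_K` some `f ∈ 𝓕_K` violates it at `r`. -/
theorem Pool.Agent.Results.MP_8fe0b8_an.Yes.result :
    ∀ K : ℝ, 1 < K →
      (∀ (a b : ℕ → ℂ) (h g : ℂ → ℂ), InF K a b h g → ∀ r : ℝ, 0 ≤ r → r ≤ rK K → Bohr a b h r) ∧
      (∀ r : ℝ, rK K < r → ∃ (a b : ℕ → ℂ) (h g : ℂ → ℂ), InF K a b h g ∧ ¬ Bohr a b h r) :=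
  fun _ hK => ⟨fun _ _ _ _ H _ r0 r1 => upper hK H r0 r1, fun _ hr => sharp hK hr⟩
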